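import Pool.Agent.W544.PG.Defs2
import Pool.Agent.H977R3.CM.Aut

/-!
# PG-DESC: Galois descent for the automorphisms of the complex numbers
-/

open Matrix Finset Module

namespace Pool.Agent.W655.PG

open Pool.Agent.W544.PG

/-- a complex number that is fixed by all automorphisms is rational -/
theorem rat_of_fixed {z : ℂ} (h : ∀ τ : ℂ ≃+* ℂ, τ z = z) : ∃ q : ℚ, (q : ℂ) = z := by
  by_cases hz : IsAlgebraic ℚ z
  · let Kb : IntermediateField ℚ ℂ := algebraicClosure ℚ ℂ
    have : Algebra.IsAlgebraic ℚ Kb := algebraicClosure.isAlgebraic ℚ ℂ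
    have : IsAlgClosure ℚ Kb := algebraicClosure.isAlgClosure ℚ ℂ
    have : IsGalois ℚ Kb := inferInstance
    let y : Kb := ⟨z, mem_algebraicClosure_iff.2 hz⟩
    have hy : y ∈ (⊥ : IntermediateField ℚ Kb) := by
      rw [InfiniteGalois.mem_bot_iff_fixed]
      intro g
      obtain ⟨τ, hτ⟩ := Pool.Agent.H977R3.CM.exists_aut (algebraMap Kb ℂ) (g : Kb ≃+* Kb)
      have h2 := h τ
      have h3 := hτ y
      change τ (y : ℂ) = ((g y : Kb) : ℂ) at h3
      apply Subtype.ext
      rw [← h3]
      exact h2
    obtain ⟨x, hx⟩ := IntermediateField.mem_bot.1 hy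
    refine ⟨x, ?_⟩
    have := congrArg (fun w : Kb => (w : ℂ)) hx
    simpa using this
  · exfalso
    have htr : Transcendental ℚ z := hz
    have hinj : Function.Injective (Polynomial.aeval z : Polynomial ℚ →ₐ[ℚ] ℂ) :=
      transcendental_iff_injective.1 htr
    let L := FractionRing (Polynomial ℚ)
    let j : L →+* ℂ := IsFractionRing.lift (A := Polynomial ℚ)
      (g := ((Polynomial.aeval z : Polynomial ℚ →ₐ[ℚ] ℂ) : Polynomial ℚ →+* ℂ)) hinj
    have hj : ∀ p : Polynomial ℚ, j (algebraMap (Polynomial ℚ) L p) = Polynomial.aeval z p :=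
      fun p => IsFractionRing.lift_algebraMap hinj p
    let e : Polynomial ℚ ≃+* Polynomial ℚ :=
      (Polynomial.algEquivAevalXAddC (1 : ℚ)).toRingEquiv
    let g : L ≃+* L := IsFractionRing.ringEquivOfRingEquiv e
    obtain ⟨τ, hτ⟩ := Pool.Agent.H977R3.CM.exists_aut j g
    have h1 := hτ (algebraMap (Polynomial ℚ) L Polynomial.X)
    have h2 : g (algebraMap (Polynomial ℚ) L Polynomial.X) =
        algebraMap (Polynomial ℚ) L (Polynomial.X + Polynomial.C 1) := by
      rw [IsFractionRing.ringEquivOfRingEquiv_algebraMap]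
      congr 1
      change Polynomial.algEquivAevalXAddC (1 : ℚ) Polynomial.X = _
      simp
    rw [h2, hj, hj, Polynomial.aeval_X, h τ] at h1
    simp at h1

theorem desc : S_desc := by
  intro n T hT
  rcases Nat.eq_zero_or_pos n with hn | hn
  · subst hn
    intro C _
    exact ⟨0, by ext i; exact i.elim0⟩
  let i0 : Fin n := ⟨0, hn⟩
  -- the subspace
  have key : ∀ (k : ℕ) (v : Matrix (Fin n) (Fin n) ℂ),
      (∀ σ : ℂ ≃+* ℂ, v * T.x.map σ = T.x.map σ * v) → v i0 i0 = 0 →
      (Finset.univ.filter (fun p : Fin n × Fin n => v p.1 p.2 ≠ 0)).card = k → v = 0 := by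
    intro k
    induction k using Nat.strong_induction_on with
    | _ k ih =>
      intro v hv h0 hk
      by_contra hne
      have hex : ∃ i j, v i j ≠ 0 := by
        by_contra hcon
        push Not at hcon
        exact hne (by ext i j; exact hcon i j)
      obtain ⟨i, j, hij⟩ := hex
      set w : Matrix (Fin n) (Fin n) ℂ := (v i j)⁻¹ • v with hw
      have hwv : ∀ σ : ℂ ≃+* ℂ, w * T.x.map σ = T.x.map σ * w := by
        intro σ
        rw [hw, smul_mul_assoc, mul_smul_comm, hv σ]
      have hw0 : w i0 i0 = 0 := by simp [hw, h0]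
      have hwij : w i j = 1 := by simp [hw, hij]
      have hfix : ∀ τ : ℂ ≃+* ℂ, w.map τ = w := by
        intro τ
        have hmap : ∀ σ : ℂ ≃+* ℂ, w.map τ * T.x.map σ = T.x.map σ * w.map τ := by
          intro σ
          have h1 := hwv (σ.trans τ.symm)
          have h2 : (T.x.map (σ.trans τ.symm)).map τ = T.x.map σ := by
            ext a b
            simp
          have h3 := congrArg (fun M : Matrix (Fin n) (Fin n) ℂ => M.map τ) h1
          simp only [Matrix.map_mul] at h3
          rw [h2] at h3
          exact h3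
        have hu := ih ((Finset.univ.filter (fun p : Fin n × Fin n =>
            (w.map τ - w) p.1 p.2 ≠ 0)).card) ?_ (w.map τ - w) ?_ ?_ rfl
        · exact sub_eq_zero.1 hu
        · rw [← hk]
          apply Finset.card_lt_card
          rw [Finset.ssubset_iff_of_subset]
          · refine ⟨(i, j), by simpa using hij, ?_⟩
            rw [Finset.mem_filter]
            simp only [Matrix.sub_apply, Matrix.map_apply, hwij, map_one, sub_self]
            simp
          · intro p hp
            simp only [Finset.mem_filter, Finset.mem_univ, true_and] at hp ⊢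
            intro hv0
            apply hp
            have : w p.1 p.2 = 0 := by simp [hw, hv0]
            simp [this]
        · intro σ
          rw [sub_mul, mul_sub, hmap, hwv]
        · simp [hw0]
      have hrat : ∀ a b, ∃ q : ℚ, (q : ℂ) = w a b := by
        intro a b
        refine rat_of_fixed fun τ => ?_
        have := congrFun (congrFun (hfix τ) a) b
        simpa using this
      choose P hP using hrat
      have hwP : mC (Matrix.of P) = w := by
        ext a b
        exact hP a b
      have hcomm : mC (Matrix.of P) * T.x = T.x * mC (Matrix.of P) := by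
        have h1 := hwv (RingEquiv.refl ℂ)
        have h2 : T.x.map (RingEquiv.refl ℂ) = T.x := by
          ext a b; simp
        rw [h2] at h1
        rw [hwP]
        exact h1
      obtain ⟨c, hc⟩ := hT _ hcomm
      have hc0 : c = 0 := by
        have h1 : (Matrix.of P) i0 i0 = c := by rw [hc]; simp
        have h2 : ((P i0 i0 : ℚ) : ℂ) = 0 := by rw [hP]; exact hw0
        have h3 : P i0 i0 = 0 := by exact_mod_cast h2
        rw [← h1]
        exact h3
      have h4 : w i j = 0 := by
        rw [← hwP, hc, hc0]
        simp [mC]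
      rw [hwij] at h4
      exact one_ne_zero h4
  intro C hC
  refine ⟨C i0 i0, ?_⟩
  have h := key _ (C - C i0 i0 • (1 : Matrix (Fin n) (Fin n) ℂ)) ?_ ?_ rfl
  · exact sub_eq_zero.1 h
  · intro σ
    rw [sub_mul, mul_sub, hC, smul_mul_assoc, mul_smul_comm, one_mul, mul_one]
  · simp

end Pool.Agent.W655.PG
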